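import Pool.Agent.Q281.TS.Disk

/-!
# A triangle-square patch that extends to a tiling but to no convex patch

The definitions (`tri`, `sq`, `IsTri`, `IsSq`, `EdgeToEdge`, `region`, `trisAt`, `sqsAt`,
`IsFamily`, `IsPatch`, `IsTiling`) are in `Pool.Agent.Q281.TS.Defs`.  Tiles are equilateral
triangles and squares with sides of length one, given by their vertex sets.

The patch is a block of eight times eight cells of the snub square tiling (vertex type 3.3.4.3.4);
it contains a disk of radius 6.  In the snub square tiling no two squares have a side in common,
but a convex patch that contains a disk of radius 6 has two squares with a common side in this disk: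
take the side of the convex polygon nearest to the centre of the disk.  As all angles of the polygon
are at most 150 degrees, the centre lies in the isosceles triangle with angles of 75 degrees over
this side, and this triangle is filled, row by row, alternately with squares and triangles.
-/

namespace Pool.Agent.Results.MP_331808_co.SnubBlock

open Set MeasureTheory Pool.Agent.Q281.TS

/-- **Theorem.**  There is a patch of triangles and squares that extends to a tiling of the plane
with exactly three triangles and two squares at every vertex, but to no convex patch. -/
theorem result : ∃ A : Set (Set ℂ), IsPatch A ∧ (∃ F : Set (Set ℂ), IsTiling F ∧ A ⊆ F) ∧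
    ¬ ∃ B : Set (Set ℂ), IsPatch B ∧ A ⊆ B ∧ Convex ℝ (region B) := by
  refine ⟨block, patch_of_sub snub_isTiling block_sub block_finite block_disk,
    ⟨snub, snub_isTiling, block_sub⟩, ?_⟩
  rintro ⟨B, hB, hAB, hc⟩
  have hCx : Cx B :=
    { tile := hB.tile
      edge := hB.edge
      fin := hB.finite
      tri3 := fun V hV v hv => (hB.outer V hV v hv).1
      sq2 := fun V hV v hv => (hB.outer V hV v hv).2
      conv := hc }
  have hsub : region block ⊆ region B := biUnion_subset_biUnion_left hAB
  obtain ⟨V, hV, W, hW, hne, qV, qW, ⟨x, hx, y, hy, hxy⟩, dV, dW⟩ :=
    two_squares hCx (p := 0) (ball_block.trans hsub)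
  have key : ∀ X ∈ B, IsSq X → (∀ z ∈ X, dist z 0 ≤ 6) → X ∈ block := by
    intro X hX qX dX
    have h1 : convexHull ℝ X ⊆ region block :=
      (convexHull_min (fun z hz => Metric.mem_closedBall.2 (dX z hz))
        (convex_closedBall (0 : ℂ) 6)).trans ball_block
    exact mem_of_open hB.toIsFamily hAB block_finite hX isOpen_interior
      (tile_interior (Or.inr qX)) interior_subset (interior_subset.trans h1)
  exact hne (snub_squares (block_sub (key V hV qV dV)) (block_sub (key W hW qW dW)) qV qW hx hy hxy)

end Pool.Agent.Results.MP_331808_co.SnubBlock
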